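import Pool.Agent.Work.MP_2738db_nt_Y.Interface

/-!
Theorem Y, phase 2: the prime `2` is allowed.  Statements of the blocks.
-/

set_option autoImplicit false

namespace Pool.Agent.Work.MP_2738db_nt_Y

/-- **ARG**: two logarithms over the Gaussian integers (`α / conj α` and a root of unity). -/
def Stmt_Arg : Prop :=
  ∃ C : ℝ, 1 ≤ C ∧ ∀ (u v : ℤ) (k : ℕ), IsCoprime u v → u ≠ 0 → v ≠ 0 → Odd (u ^ 2 + v ^ 2) →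
    1 ≤ k →
    Real.exp (k / 2 * Real.log ((u : ℝ) ^ 2 + (v : ℝ) ^ 2) -
        C * Real.log ((u : ℝ) ^ 2 + (v : ℝ) ^ 2) * (1 + Real.log k) ^ 2) ≤
      |((((⟨u, v⟩ : GaussianInt) ^ k).im : ℤ) : ℝ)|

/-- **GFAC**: sums of two squares that are powers. -/
def Stmt_Gfac : Prop :=
  ∀ (A B c k : ℕ), Nat.Coprime A B → 1 ≤ A → 1 ≤ B → 2 ≤ k → A ^ 2 + B ^ 2 = c ^ k →
    ∃ u v : ℤ, IsCoprime u v ∧ u ≠ 0 ∧ v ≠ 0 ∧ Odd (u ^ 2 + v ^ 2) ∧ u ^ 2 + v ^ 2 = c ∧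
      (((A : ℤ) = |((⟨u, v⟩ : GaussianInt) ^ k).re| ∧ (B : ℤ) = |((⟨u, v⟩ : GaussianInt) ^ k).im|) ∨
       ((A : ℤ) = |((⟨u, v⟩ : GaussianInt) ^ k).im| ∧ (B : ℤ) = |((⟨u, v⟩ : GaussianInt) ^ k).re|))

/-- **SQF**: factors of a difference of two coprime squares that is a power. -/
def Stmt_Sqf : Prop :=
  ∀ (A B w t : ℕ), Nat.Coprime A B → 1 ≤ B → B < A → 2 ≤ t → B ^ 2 + w ^ t = A ^ 2 →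
    (∃ U v : ℕ, 1 ≤ U ∧ U < v ∧ A = B + U ^ t ∧ A + B = v ^ t) ∨
    (∃ U v : ℕ, 1 ≤ U ∧ 1 ≤ v ∧ ((A = B + 2 * U ^ t ∧ A + B = 2 ^ (t - 1) * v ^ t) ∨
      (A = B + 2 ^ (t - 1) * v ^ t ∧ A + B = 2 * U ^ t)))

/-- **GAP22**: the prime `p = 2` of GAP2. -/
def Stmt_Gap22 : Prop :=
  ∃ C : ℝ, 1 ≤ C ∧ ∀ (k A B c : ℕ) (M : ℝ), 2 ≤ k → 1 ≤ B → B < A →
    Nat.Coprime A B → 1 ≤ c → (A ^ 2 + B ^ 2 = c ^ k ∧ M = Real.log (c ^ k) ∨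
      B ^ 2 + c ^ k = A ^ 2 ∧ M = Real.log (A ^ 2)) →
    M - 2 * Real.log B ≤ C * (Real.log k ^ 3 / k) * M

/-- **CASC**: `Y ^ 2 - Z ^ 2 = x ^ p`, one of `Y`, `Z` a `p`-th power: `x ^ p` is not small. -/
def Stmt_Casc : Prop :=
  ∃ C : ℝ, 1 ≤ C ∧ ∀ (p x Y Z w : ℕ), p.Prime → 3 ≤ p → 1 ≤ x →
    1 ≤ Z → Z < Y → Nat.Coprime Y Z → (Y = w ^ p ∨ Z = w ^ p) → Z ^ 2 + x ^ p = Y ^ 2 →
    2 * Real.log Y - p * Real.log x ≤ C * (Real.log p ^ 3 / p) * (2 * Real.log Y)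

/-- **THEOREM Y1, all primes** -/
def Stmt_Y1a : Prop :=
  ∃ C : ℝ, ∀ a b c m n k p : ℕ, 1 ≤ a → 1 ≤ b → 1 ≤ c → Nat.Coprime a b → 2 ≤ k → p.Prime →
    1 ≤ m → 1 ≤ n → p ∣ m → p ∣ n →
    (a ^ m + b ^ n = c ^ k ∨ b ^ n + c ^ k = a ^ m ∨ c ^ k + a ^ m = b ^ n) →
    ((max (a ^ m) (max (b ^ n) (c ^ k)) : ℕ) : ℝ) ^ (1 - C * (p * Real.log k ^ 3 / k)) ≤
      ((min (a ^ m) (b ^ n) : ℕ) : ℝ)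

/-- **THEOREM Y2, all primes** -/
def Stmt_Y2a : Prop :=
  ∃ C : ℝ, ∀ a b c m n k p q : ℕ, 1 ≤ a → 1 ≤ b → 1 ≤ c → Nat.Coprime a b → p.Prime → q.Prime →
    1 ≤ m → 1 ≤ n → 1 ≤ k → p ∣ m → p ∣ n → q ∣ n → q ∣ k →
    (a ^ m + b ^ n = c ^ k ∨ b ^ n + c ^ k = a ^ m ∨ c ^ k + a ^ m = b ^ n) →
    ((max (a ^ m) (max (b ^ n) (c ^ k)) : ℕ) : ℝ) ^
        (1 - C * (Real.log ((max p q : ℕ) : ℝ) ^ 8 / Real.sqrt ((max p q : ℕ) : ℝ))) ≤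
      ((min (a ^ m) (min (b ^ n) (c ^ k)) : ℕ) : ℝ)

end Pool.Agent.Work.MP_2738db_nt_Y
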