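import Mathlib

/-!
Theorem Y for the Fermat-Catalan conjecture (MP_2738db_nt): gap principles for exponents with common
factors.  Statements of the blocks.  Proofs: `BLUEPRINT.md`.
-/

set_option autoImplicit false

namespace Pool.Agent.Work.MP_2738db_nt_Y

open Finset Polynomial

/-! ### Polynomials in two variables: outer variable `x`, inner variable `y` -/

/-- degree at most `D` in each variable -/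
def BiDeg (D : ℕ) (P : ℚ[X][X]) : Prop := P.natDegree ≤ D ∧ ∀ i, (P.coeff i).natDegree ≤ D

/-- the value `P(x, y)`, `x` for the outer variable -/
noncomputable def ev (x y : ℚ) (P : ℚ[X][X]) : ℚ := (P.eval (C x)).eval y

/-- the translate `P(X + a, Y + b)` -/
noncomputable def tr (a b : ℚ) (P : ℚ[X][X]) : ℚ[X][X] :=
  (P.map (compRingHom (X + C b))).comp (X + C (C a))

/-- **BEZ**: coprime polynomials have few common zeros. -/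
def Stmt_Bez : Prop :=
  ∀ (P G : ℚ[X][X]) (D : ℕ) (S : Finset (ℚ × ℚ)), BiDeg D P → BiDeg D G → IsRelPrime P G →
    (∀ s ∈ S, ev s.1 s.2 P = 0 ∧ ev s.1 s.2 G = 0) → S.card ≤ 8 * D ^ 2

/-- **TRA**: a polynomial with two independent periods up to constants is constant. -/
def Stmt_Tra : Prop :=
  ∀ (Q : ℚ[X][X]) (v w : ℤ × ℤ), v.1 * w.2 ≠ v.2 * w.1 →
    Associated (tr v.1 v.2 Q) Q → Associated (tr w.1 w.2 Q) Q → ∃ c : ℚ, Q = C (C c)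

/-- **FEW**: few pairwise non-associated translates of an irreducible `Q` divide `P ≠ 0`. -/
def Stmt_Few : Prop :=
  ∀ (P Q : ℚ[X][X]) (D : ℕ) (T : Finset (ℤ × ℤ)), P ≠ 0 → BiDeg D P → Irreducible Q →
    (∀ s ∈ T, tr (-s.1) (-s.2) Q ∣ P) →
    (∀ s ∈ T, ∀ t ∈ T, s ≠ t → ¬ Associated (tr (-s.1) (-s.2) Q) (tr (-t.1) (-t.2) Q)) →
    T.card ≤ D

/-- **GEN**: a combination of translates of `P` coprime to `P₀`. -/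
def Stmt_Gen : Prop :=
  ∀ (P₀ P : ℚ[X][X]) (D : ℕ) (Ξ : Finset (ℤ × ℤ)), P₀ ≠ 0 → BiDeg D P →
    (∀ Q : ℚ[X][X], Irreducible Q → Q ∣ P₀ → ∃ s ∈ Ξ, ¬ Q ∣ tr s.1 s.2 P) →
    ∃ G : ℚ[X][X], BiDeg D G ∧ IsRelPrime P₀ G ∧
      ∀ x y : ℚ, (∀ s ∈ Ξ, ev (x + s.1) (y + s.2) P = 0) → ev x y G = 0

/-- **ZPL**: zero estimate in the plane, for a sum set. -/
def Stmt_Zpl : Prop :=
  ∀ (P : ℚ[X][X]) (D : ℕ) (Ξ : Finset (ℤ × ℤ)), P ≠ 0 → BiDeg D P →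
    (∀ s ∈ Ξ, ∀ t ∈ Ξ, ev (s.1 + t.1) (s.2 + t.2) P = 0) →
    (∀ a b : ℤ, (a ≠ 0 ∨ b ≠ 0) → D < (Ξ.image (fun s => a * s.1 + b * s.2)).card) →
    Ξ.card ≤ 8 * D ^ 2

/-- the points -/
def Xi (p q R₁ R : ℕ) : Finset (ℤ × ℤ) :=
  (range R₁ ×ˢ (range R ×ˢ range R)).image
    (fun r => ((r.1 : ℤ) + q * r.2.1, (p : ℤ) * (r.2.2 + 1) - r.1))

/-- **VAL**: every linear form takes many values on the points; the points are distinct. -/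
def Stmt_Val : Prop :=
  ∀ p q R₁ R : ℕ, p.Prime → q.Prime → p ≠ q → R₁ ≤ p → R₁ ≤ q → R₁ ≤ R →
    (Xi p q R₁ R).card = R₁ * (R * R) ∧
    ∀ a b : ℤ, (a ≠ 0 ∨ b ≠ 0) → R₁ * R ≤ ((Xi p q R₁ R).image (fun s => a * s.1 + b * s.2)).card

/-- **ZE**: the zero estimate for the interpolation matrix. -/
def Stmt_Ze : Prop :=
  ∀ (p q K L R₁ R : ℕ) (α : ℚ), p.Prime → q.Prime → p ≠ q → 0 < α → 1 ≤ K → 1 ≤ L →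
    2 * R₁ ≤ p → 2 * R₁ ≤ q → R₁ ≤ R → 8 * (K * L) ^ 2 < R₁ * (R * R) → K * L < R₁ * R →
    ∀ c : Fin K × Fin K × Fin L → ℚ,
      (∀ r₁ < 2 * R₁, ∀ r₂ < 2 * R + L, ∀ r₃ < 2 * R,
        ∑ i, c i * ((Nat.choose (r₁ + q * r₂) i.1 : ℚ) * (Nat.choose (p * (r₃ + 1) - r₁) i.2.1 : ℚ) *
          (α ^ r₁ * (p : ℚ) ^ r₂ * (q : ℚ) ^ (r₃ + 1)) ^ (i.2.2 : ℕ)) = 0) → c = 0

/-! ### The analytic side -/

/-- **DET**: upper bound for the perturbed interpolation determinant in two variables. -/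
def Stmt_Det : Prop :=
  ∀ (ι : Type) [Fintype ι] [DecidableEq ι] (Z₁ Z₂ T G : ℕ) (k₁ k₂ : ι → ℕ) (u₁ u₂ : ι → ℝ)
    (z₁ z₂ : ι → ℕ), (∀ j, z₁ j ≤ Z₁) → (∀ j, z₂ j ≤ Z₂) → (∀ i, 1 ≤ u₁ i) → (∀ i, 1 ≤ u₂ i) →
    T * (T + 1) ≤ Fintype.card ι →
    2 * G + 2 * ∑ i, (k₁ i + k₂ i) ≤ Fintype.card ι * T →
    ∀ (E : ι → ι → ℝ) (β : ι → ℝ), (∀ i j, |E i j| ≤ β i) →
    |(Matrix.of fun i j => (Nat.choose (z₁ j) (k₁ i) : ℝ) * (Nat.choose (z₂ j) (k₂ i) : ℝ) *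
        (u₁ i ^ (z₁ j) * u₂ i ^ (z₂ j)) + E i j).det| * 2 ^ G
      ≤ (Fintype.card ι).factorial *
        ∏ i, ((Nat.choose Z₁ (k₁ i) : ℝ) * u₁ i ^ k₁ i * (1 + 2 * (u₁ i - 1)) ^ Z₁ *
          ((Nat.choose Z₂ (k₂ i) : ℝ) * u₂ i ^ k₂ i * (1 + 2 * (u₂ i - 1)) ^ Z₂) + 2 ^ T * β i)

/-- **CORE**: the determinant inequality for three logarithms. -/
def Stmt_Core : Prop :=
  ∀ (U S p q K L R₁ R Z₁ Z₂ T G : ℕ) (B w₁ w₂ lam W h : ℝ), 1 ≤ U → 1 ≤ S → p.Prime → q.Prime →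
    p ≠ q → 1 ≤ K → 1 ≤ L → 2 * R₁ ≤ p → 2 * R₁ ≤ q → R₁ ≤ R → 8 * (K * L) ^ 2 < R₁ * (R * R) →
    K * L < R₁ * R → 2 * R₁ + q * (2 * R + L) ≤ Z₁ → p * (2 * R) ≤ Z₂ →
    T * (T + 1) ≤ K * K * L → 2 * G + 2 * (K * K * L * (K - 1)) ≤ K * K * L * T →
    (∀ k < K, ∀ z ≤ Z₁, (Nat.choose z k : ℝ) ≤ B) → (∀ k < K, ∀ z ≤ Z₂, (Nat.choose z k : ℝ) ≤ B) →
    w₁ = Real.log p / q → w₂ = Real.log q / p → Real.log U - Real.log S = w₁ - w₂ + lam →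
    |lam| * (L * (2 * R₁)) * 2 ^ (T + 1) ≤ 1 → L * w₁ ≤ 1 → L * w₂ ≤ 1 → Z₁ * w₁ ≤ W →
    Z₂ * w₂ ≤ W → Real.log S ≤ h →
    (2 : ℝ) ^ G ≤ (K * K * L).factorial * (2 * B ^ 2) ^ (K * K * L) *
      Real.exp ((K * K * L) * (L * (K * (w₁ + w₂) + 8 * W) + L * (2 * R₁) * h))

/-- **LF3**: the linear form in the three logarithms of `U / S`, `p`, `q`. -/
def Stmt_Lf3 : Prop :=
  ∃ C : ℝ, 1 ≤ C ∧ ∀ (U S p q : ℕ) (h : ℝ), 1 ≤ U → 1 ≤ S → p.Prime → q.Prime → p ≠ q → 1 ≤ h →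
    Real.log U ≤ h → Real.log S ≤ h →
    C * (1 + Real.log (p * q)) ^ 10 ≤ p → C * (1 + Real.log (p * q)) ^ 10 ≤ q →
    Real.exp (-(C * h * (1 + Real.log (p * q)) ^ 13)) ≤
      |p * q * (Real.log U - Real.log S) - p * Real.log p + q * Real.log q|

/-- **ARQ**: two logarithms theorem for a positive rational and a positive integer. -/
def Stmt_Arq : Prop :=
  ∃ C : ℝ, 1 ≤ C ∧ ∀ (X₁ X₂ Y k₀ l : ℕ) (A B : ℝ), 1 ≤ X₁ → 1 ≤ X₂ → 2 ≤ Y → 1 ≤ k₀ → 1 ≤ l →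
    Nat.Coprime l k₀ → 1 ≤ A → 1 ≤ B → Real.log X₁ ≤ A → Real.log X₂ ≤ A → Real.log Y ≤ B →
    (k₀ : ℝ) ≤ A * l → C * B * (1 + Real.log l) ≤ l →
    Real.exp (-(C * (A * B) * (1 + Real.log l) ^ 2)) ≤
      |l * (Real.log X₁ - Real.log X₂) - k₀ * Real.log Y|

/-! ### Arithmetic -/

/-- **ABM**: factors of `A ^ r - B ^ r = w ^ t` (`r` an odd prime). -/
def Stmt_Abm : Prop :=
  ∀ (r A B w t : ℕ), r.Prime → 3 ≤ r → Nat.Coprime A B → 1 ≤ B → B < A → 1 ≤ t →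
    B ^ r + w ^ t = A ^ r →
    (∃ U v : ℕ, ¬ r ∣ w ∧ A = B + U ^ t ∧ w = U * v ∧
      ∑ i ∈ range r, A ^ i * B ^ (r - 1 - i) = v ^ t) ∨
    (∃ U v : ℕ, r ∣ U ∧ r * A = r * B + U ^ t ∧
      ∑ i ∈ range r, A ^ i * B ^ (r - 1 - i) = r * v ^ t)

/-- **ABP**: factors of `A ^ r + B ^ r = w ^ t` (`r` an odd prime). -/
def Stmt_Abp : Prop :=
  ∀ (r A B w t : ℕ), r.Prime → 3 ≤ r → Nat.Coprime A B → 1 ≤ B → 1 ≤ A → 1 ≤ t →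
    A ^ r + B ^ r = w ^ t →
    (∃ U : ℕ, A + B = U ^ t) ∨ (∃ U : ℕ, r ∣ U ∧ r * (A + B) = U ^ t)

/-- **GAP2** (two logarithms): if `A ^ p ± B ^ p = ± c ^ k` with `B < A` then `B ^ p` is not small. -/
def Stmt_Gap2 : Prop :=
  ∃ C : ℝ, 1 ≤ C ∧ ∀ (p k A B c : ℕ) (M : ℝ), p.Prime → 3 ≤ p → 2 ≤ k → 1 ≤ B → B < A →
    Nat.Coprime A B → 1 ≤ c → (A ^ p + B ^ p = c ^ k ∧ M = Real.log (c ^ k) ∨
      B ^ p + c ^ k = A ^ p ∧ M = Real.log (A ^ p)) →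
    M - p * Real.log B ≤ C * (p * Real.log k ^ 3 / k) * M

/-- **CASB**: `Y ^ q - Z ^ q = x ^ p`, one of `Y`, `Z` a `p`-th power: `x ^ p` is not small. -/
def Stmt_Casb : Prop :=
  ∃ C : ℝ, 1 ≤ C ∧ ∀ (p q x Y Z w : ℕ), p.Prime → q.Prime → p ≠ q → 3 ≤ q → 1 ≤ x →
    1 ≤ Z → Z < Y → Nat.Coprime Y Z → (Y = w ^ p ∨ Z = w ^ p) → Z ^ q + x ^ p = Y ^ q →
    q * Real.log Y - p * Real.log x ≤
      C * (Real.log ((max p q : ℕ) : ℝ) ^ 3 / ((max p q : ℕ) : ℝ)) * (q * Real.log Y)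

/-- **STB** (three logarithms): `x ^ p = y ^ q + z ^ (p * q)`, `z ^ (p * q)` the smallest term. -/
def Stmt_Stb : Prop :=
  ∃ C : ℝ, 1 ≤ C ∧ ∀ (p q x y z : ℕ), p.Prime → q.Prime → p ≠ q → 3 ≤ p → 3 ≤ q → 1 ≤ x →
    1 ≤ y → 1 ≤ z → Nat.Coprime x z → z ^ (p * q) ≤ y ^ q → y ^ q + z ^ (p * q) = x ^ p →
    C * (1 + Real.log (p * q)) ^ 10 ≤ p → C * (1 + Real.log (p * q)) ^ 10 ≤ q →
    p * Real.log x - p * q * Real.log z ≤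
      C * (Real.log ((max p q : ℕ) : ℝ) ^ 13 / ((min p q : ℕ) : ℝ)) * (p * Real.log x)

/-- **THEOREM Y1** -/
def Stmt_Y1 : Prop :=
  ∃ C : ℝ, ∀ a b c m n k p : ℕ, 1 ≤ a → 1 ≤ b → 1 ≤ c → Nat.Coprime a b → 2 ≤ k → p.Prime →
    p ≠ 2 → 1 ≤ m → 1 ≤ n → p ∣ m → p ∣ n →
    (a ^ m + b ^ n = c ^ k ∨ b ^ n + c ^ k = a ^ m ∨ c ^ k + a ^ m = b ^ n) →
    ((max (a ^ m) (max (b ^ n) (c ^ k)) : ℕ) : ℝ) ^ (1 - C * (p * Real.log k ^ 3 / k)) ≤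
      ((min (a ^ m) (b ^ n) : ℕ) : ℝ)

/-- **THEOREM Y2** -/
def Stmt_Y2 : Prop :=
  ∃ C : ℝ, ∀ a b c m n k p q : ℕ, 1 ≤ a → 1 ≤ b → 1 ≤ c → Nat.Coprime a b → p.Prime → q.Prime →
    p ≠ 2 → q ≠ 2 → 1 ≤ m → 1 ≤ n → 1 ≤ k → p ∣ m → p ∣ n → q ∣ n → q ∣ k →
    (a ^ m + b ^ n = c ^ k ∨ b ^ n + c ^ k = a ^ m ∨ c ^ k + a ^ m = b ^ n) →
    ((max (a ^ m) (max (b ^ n) (c ^ k)) : ℕ) : ℝ) ^
        (1 - C * (Real.log ((max p q : ℕ) : ℝ) ^ 8 / Real.sqrt ((max p q : ℕ) : ℝ))) ≤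
      ((min (a ^ m) (min (b ^ n) (c ^ k)) : ℕ) : ℝ)

end Pool.Agent.Work.MP_2738db_nt_Y
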