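import Pool.Agent.Work.MP_2738db_nt_Y.Interface2

/-!
Theorem Y, phase 3: the `r`-adic side (smooth parts of `b ^ n`).  Statements of the blocks.
-/

set_option autoImplicit false

namespace Pool.Agent.Work.MP_2738db_nt_Y

open Finset

/-- **LTR**: lifting the exponent for a ratio. -/
def Stmt_Ltr : Prop :=
  ∀ (r X₁ X₂ j V : ℕ), r.Prime → ¬ r ∣ X₁ → ¬ r ∣ X₂ → 1 ≤ j →
    (r : ℤ) ^ V ∣ (X₁ : ℤ) ^ (2 * j) - (X₂ : ℤ) ^ (2 * j) →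
    ∃ V' : ℕ, (r : ℤ) ^ V' ∣ (X₁ : ℤ) ^ (2 * (r - 1)) - (X₂ : ℤ) ^ (2 * (r - 1)) ∧
      r ^ V ≤ j * r ^ V'

/-- **ARR**: `r`-adic two logarithms theorem for a positive rational and a positive integer. -/
def Stmt_Arr : Prop :=
  ∃ C : ℝ, 1 ≤ C ∧ ∀ (r X₁ X₂ Y k₀ l j V : ℕ) (A B : ℝ), r.Prime → ¬ r ∣ X₁ → ¬ r ∣ X₂ →
    ¬ r ∣ Y → 2 ≤ Y → 1 ≤ k₀ → 1 ≤ l → 1 ≤ j → Nat.Coprime l k₀ → 1 ≤ A → 1 ≤ B →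
    Real.log X₁ ≤ A → Real.log X₂ ≤ A → Real.log Y ≤ B → (k₀ : ℝ) ≤ A * l →
    C * r * B * (1 + Real.log l) ≤ l →
    (r : ℤ) ^ V ∣ ((X₁ : ℤ) ^ l) ^ (2 * j) - ((X₂ : ℤ) ^ l * (Y : ℤ) ^ k₀) ^ (2 * j) →
    V * Real.log r ≤ C * r ^ 3 * (A * B) * (1 + Real.log l) ^ 2 + Real.log j

/-- **ZEG**: the zero estimate with general bases. -/
def Stmt_Zeg : Prop :=
  ∀ (p q K L R₁ R : ℕ) (α β₁ β₂ : ℚ), p.Prime → q.Prime → p ≠ q → 0 < α → 1 < β₁ → 0 < β₂ →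
    1 ≤ K → 1 ≤ L → 2 * R₁ ≤ p → 2 * R₁ ≤ q → R₁ ≤ R → 8 * (K * L) ^ 2 < R₁ * (R * R) →
    K * L < R₁ * R →
    ∀ c : Fin K × Fin K × Fin L → ℚ,
      (∀ r₁ < 2 * R₁, ∀ r₂ < 2 * R + L, ∀ r₃ < 2 * R,
        ∑ i, c i * ((Nat.choose (r₁ + q * r₂) i.1 : ℚ) * (Nat.choose (p * (r₃ + 1) - r₁) i.2.1 : ℚ) *
          (α ^ r₁ * β₁ ^ r₂ * β₂ ^ (r₃ + 1)) ^ (i.2.2 : ℕ)) = 0) → c = 0

/-- **CORR**: the `r`-adic determinant inequality for three logarithms. -/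
def Stmt_Corr : Prop :=
  ∀ (r V U S Pb Qb p q K L R₁ R Z₁ Z₂ T G : ℕ) (B h : ℝ), r.Prime → p.Prime → q.Prime →
    p ≠ q → r ≠ p → r ≠ q → 1 ≤ U → 1 ≤ S → 2 ≤ Pb → 1 ≤ Qb →
    (r : ℤ) ∣ (U : ℤ) - 1 → (r : ℤ) ∣ (S : ℤ) - 1 → (r : ℤ) ∣ (Pb : ℤ) - 1 →
    (r : ℤ) ∣ (Qb : ℤ) - 1 →
    (r : ℤ) ^ V ∣ (U : ℤ) ^ (p * q) * (Qb : ℤ) ^ q - (S : ℤ) ^ (p * q) * (Pb : ℤ) ^ p →
    1 ≤ K → 1 ≤ L → 2 * R₁ ≤ p → 2 * R₁ ≤ q → R₁ ≤ R → 8 * (K * L) ^ 2 < R₁ * (R * R) →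
    K * L < R₁ * R → 2 * R₁ + q * (2 * R + L) ≤ Z₁ → p * (2 * R) ≤ Z₂ →
    T * (T + 1) ≤ K * K * L → 2 * G + 2 * (K * K * L * (K - 1)) ≤ K * K * L * T → T ≤ V →
    (∀ k < K, ∀ z ≤ Z₁, (Nat.choose z k : ℝ) ≤ B) → (∀ k < K, ∀ z ≤ Z₂, (Nat.choose z k : ℝ) ≤ B) →
    Real.log U ≤ h → Real.log S ≤ h →
    (r : ℝ) ^ G ≤ (K * K * L).factorial * (B ^ 2) ^ (K * K * L) *
      Real.exp ((K * K * L) * (L * (2 * R₁ * h + (2 * R + L) * Real.log Pb + 2 * R * Real.log Qb)))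

/-- **LF3R**: the `r`-adic linear form in the three logarithms of `U / S`, `p`, `q`. -/
def Stmt_Lf3r : Prop :=
  ∃ C : ℝ, 1 ≤ C ∧ ∀ (r U S p q V : ℕ) (h : ℝ), r.Prime → p.Prime → q.Prime → p ≠ q → r ≠ p →
    r ≠ q → ¬ r ∣ U → ¬ r ∣ S → 1 ≤ h → Real.log U ≤ h → Real.log S ≤ h →
    C * (r * (1 + Real.log (p * q))) ^ 10 ≤ p → C * (r * (1 + Real.log (p * q))) ^ 10 ≤ q →
    (r : ℤ) ^ V ∣ ((U : ℤ) ^ (p * q) * (q : ℤ) ^ q) ^ 2 - ((S : ℤ) ^ (p * q) * (p : ℤ) ^ p) ^ 2 →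
    V * Real.log r ≤ C * r ^ 14 * h * (1 + Real.log (p * q)) ^ 13

/-- **GAP2R**: if `r ∣ B` and `± A ^ p ± B ^ p = c ^ k` then the `r`-part of `B ^ p` is small. -/
def Stmt_Gap2r : Prop :=
  ∃ C : ℝ, 1 ≤ C ∧ ∀ (p k A B c r : ℕ) (M : ℝ), p.Prime → 3 ≤ p → 2 ≤ k → 1 ≤ A → 1 ≤ B →
    1 ≤ c → Nat.Coprime A B → r.Prime → r ∣ B →
    (A ^ p + B ^ p = c ^ k ∧ M = Real.log (c ^ k) ∨ B ^ p + c ^ k = A ^ p ∧ M = Real.log (A ^ p) ∨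
      c ^ k + A ^ p = B ^ p ∧ M = Real.log (B ^ p)) →
    p * (padicValNat r B) * Real.log r ≤ C * r ^ 3 * (p * Real.log k ^ 3 / k) * M

/-- **GLR**: `r`-adic size of `Im α ^ n` for a Gaussian integer. -/
def Stmt_Glr : Prop :=
  ∀ (r n V : ℕ) (u v : ℤ), r.Prime → IsCoprime u v → u ≠ 0 → v ≠ 0 → Odd (u ^ 2 + v ^ 2) →
    ¬ (r : ℤ) ∣ u ^ 2 + v ^ 2 → 1 ≤ n → (r : ℤ) ^ V ∣ ((⟨u, v⟩ : GaussianInt) ^ n).im →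
    V * Real.log r ≤ r ^ 2 * Real.log ((u : ℝ) ^ 2 + (v : ℝ) ^ 2) + Real.log n

/-- **GAP22R**: the prime `p = 2` of GAP2R. -/
def Stmt_Gap22r : Prop :=
  ∃ C : ℝ, 1 ≤ C ∧ ∀ (k A B c r : ℕ) (M : ℝ), 2 ≤ k → 1 ≤ A → 1 ≤ B →
    1 ≤ c → Nat.Coprime A B → r.Prime → r ∣ B →
    (A ^ 2 + B ^ 2 = c ^ k ∧ M = Real.log (c ^ k) ∨ B ^ 2 + c ^ k = A ^ 2 ∧ M = Real.log (A ^ 2) ∨
      c ^ k + A ^ 2 = B ^ 2 ∧ M = Real.log (B ^ 2)) →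
    2 * (padicValNat r B) * Real.log r ≤ C * r ^ 3 * (Real.log k ^ 3 / k) * M

/-- **STBR** (three logarithms): the `r`-part of `z ^ (p * q)` is small. -/
def Stmt_Stbr : Prop :=
  ∃ C : ℝ, 1 ≤ C ∧ ∀ (p q x y z r : ℕ) (M : ℝ), p.Prime → q.Prime → p ≠ q → 3 ≤ p → 3 ≤ q →
    1 ≤ x → 1 ≤ y → 1 ≤ z → Nat.Coprime x z → Nat.Coprime y z → r.Prime → r ∣ z →
    (x ^ p + z ^ (p * q) = y ^ q ∧ M = Real.log (y ^ q) ∨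
      z ^ (p * q) + y ^ q = x ^ p ∧ M = Real.log (x ^ p) ∨
      y ^ q + x ^ p = z ^ (p * q) ∧ M = Real.log (z ^ (p * q))) →
    C * (r * (1 + Real.log (p * q))) ^ 10 ≤ p → C * (r * (1 + Real.log (p * q))) ^ 10 ≤ q →
    p * q * (padicValNat r z) * Real.log r ≤
      C * r ^ 14 * (Real.log ((max p q : ℕ) : ℝ) ^ 13 / ((min p q : ℕ) : ℝ)) * M

/-- **THEOREM Y**: the final statement. -/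
def Stmt_Y : Prop :=
  ∃ C : ℝ, ∀ (a b c m n k p y d u : ℕ) (η : ℝ), 1 ≤ a → 1 ≤ b → 1 ≤ c → Nat.Coprime a b →
    1 ≤ m → 1 ≤ n → 2 ≤ k →
    (a ^ m + b ^ n = c ^ k ∨ b ^ n + c ^ k = a ^ m ∨ c ^ k + a ^ m = b ^ n) →
    p.Prime → p ∣ m → p ∣ n →
    (η = p * Real.log k ^ 3 / k ∨ ∃ q : ℕ, q.Prime ∧ q ∣ n ∧ q ∣ k ∧
      η = Real.log ((max p q : ℕ) : ℝ) ^ 8 / Real.sqrt ((max p q : ℕ) : ℝ)) →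
    1 ≤ y → b ^ n = d * u → (∀ r : ℕ, r.Prime → r ∣ d → r ≤ y) →
    ((max (a ^ m) (max (b ^ n) (c ^ k)) : ℕ) : ℝ) ^ (1 - C * (y : ℝ) ^ 15 * η) ≤
      ((min (a ^ m) u : ℕ) : ℝ)

end Pool.Agent.Work.MP_2738db_nt_Y
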