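import Pool.Agent.Work.MP_2738db_nt_Y.Interface3
import Pool.Agent.Work.MP_2738db_nt_A.Interface

/-!
Theorem Y, phase 4: smooth parts of all three terms.  Statements of the blocks.
-/

set_option autoImplicit false

namespace Pool.Agent.Work.MP_2738db_nt_Y

open Finset NumberField
open Pool.Agent.Work.MP_2738db_nt_A (HB)

/-- **TLN**: two logarithms over a number field, linear in both heights, general residues. -/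
def Stmt_Tln : Prop :=
  ∀ (K : Type) [Field K] [NumberField K] (P : Ideal (𝓞 K)) (x₁ x₂ y₁ y₂ : 𝓞 K)
    (l M : ℕ) (A B D Q : ℝ),
    P.IsPrime → P ≠ ⊥ → x₁ ∉ P → x₂ ∉ P → y₁ ∉ P → y₂ ∉ P → (∀ j : ℕ, 1 ≤ j → x₁ ^ j ≠ x₂ ^ j) →
    x₁ * y₁ ^ l - x₂ * y₂ ^ l ∈ P ^ M →
    1 ≤ D → (Module.finrank ℚ K : ℝ) ≤ D → (Ideal.absNorm P : ℝ) ≤ Q →
    1 ≤ A → 1 ≤ B → HB K y₁ A → HB K y₂ A → HB K x₁ B → HB K x₂ B →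
    10 ^ 4 * D ^ 2 * Q * B * (1 + Real.log l) ≤ l →
    (M : ℝ) ≤ 10 ^ 8 * D ^ 4 * Q ^ 2 * A * B * (1 + Real.log l) ^ 2

/-- **CYC**: two logarithms over the `q`-th cyclotomic field at a prime `r` of degree one:
`x ^ p = ± (Y ^ q - (e w) ^ q)`, `r ∣ x`, `r ∤ Y - e w`. -/
def Stmt_Cyc : Prop :=
  ∃ C : ℝ, 1 ≤ C ∧ ∀ (p q r V s z Y : ℕ) (e : ℤ) (κ : ℕ) (A : ℝ), p.Prime → q.Prime → r.Prime →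
    3 ≤ p → 3 ≤ q → p ≠ q → (e = 1 ∨ e = -1) → (κ = 1 ∨ κ = q) → 1 ≤ s → 1 ≤ z → 1 ≤ Y →
    ¬ r ∣ Y → ¬ r ∣ z → ¬ r ∣ s → ¬ (r : ℤ) ∣ (Y : ℤ) - e * (z : ℤ) ^ p →
    (r : ℤ) ^ V ∣ (Y : ℤ) ^ q - (e * (z : ℤ) ^ p) ^ q → 1 ≤ V →
    ((κ : ℤ) * ((Y : ℤ) - e * (z : ℤ) ^ p) = (s : ℤ) ^ p ∨
      (κ : ℤ) * ((Y : ℤ) - e * (z : ℤ) ^ p) = -(s : ℤ) ^ p) →
    1 ≤ A → Real.log s ≤ A → Real.log z ≤ A → C * r ^ 4 * (1 + Real.log p) ≤ p →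
    V * Real.log r ≤ C * r ^ 9 * A * (1 + Real.log p) ^ 2

/-- **CBR**: the `r`-part of `x ^ p`, `q` odd. -/
def Stmt_Cbr : Prop :=
  ∃ C : ℝ, 1 ≤ C ∧ ∀ (p q x y z r : ℕ) (M : ℝ), p.Prime → q.Prime → p ≠ q → 3 ≤ q →
    1 ≤ x → 1 ≤ y → 1 ≤ z → Nat.Coprime x z → Nat.Coprime x y → Nat.Coprime y z → r.Prime → r ∣ x →
    (x ^ p + z ^ (p * q) = y ^ q ∧ M = Real.log (y ^ q) ∨
      z ^ (p * q) + y ^ q = x ^ p ∧ M = Real.log (x ^ p) ∨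
      y ^ q + x ^ p = z ^ (p * q) ∧ M = Real.log (z ^ (p * q))) →
    p * (padicValNat r x) * Real.log r ≤
      C * r ^ 10 * (Real.log ((max p q : ℕ) : ℝ) ^ 3 / ((max p q : ℕ) : ℝ)) * M

/-- **GAU**: two logarithms over `ℚ(i)` at a prime: `(u + i v) ^ p = unit * (y + i z ^ p)`. -/
def Stmt_Gau : Prop :=
  ∃ C : ℝ, 1 ≤ C ∧ ∀ (p r V z : ℕ) (y u v : ℤ) (g : GaussianInt) (A : ℝ), p.Prime → r.Prime →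
    3 ≤ p → IsUnit g → IsCoprime u v → Odd (u ^ 2 + v ^ 2) → (r : ℤ) ∣ u ^ 2 + v ^ 2 →
    (r : ℤ) ^ V ∣ u ^ 2 + v ^ 2 → ¬ r ∣ z → 1 ≤ z →
    g * (⟨u, v⟩ : GaussianInt) ^ p = ⟨y, (z : ℤ) ^ p⟩ →
    1 ≤ A → Real.log ((u : ℝ) ^ 2 + (v : ℝ) ^ 2) ≤ A → Real.log z ≤ A →
    C * r ^ 2 * (1 + Real.log p) ≤ p →
    p * V * Real.log r ≤ C * r ^ 6 * A * (1 + Real.log p) ^ 2

/-- **CBR2**: the `r`-part of `x ^ p`, `q = 2`. -/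
def Stmt_Cbr2 : Prop :=
  ∃ C : ℝ, 1 ≤ C ∧ ∀ (p x y z r : ℕ) (M : ℝ), p.Prime → 3 ≤ p →
    1 ≤ x → 1 ≤ y → 1 ≤ z → Nat.Coprime x z → Nat.Coprime x y → Nat.Coprime y z → r.Prime → r ∣ x →
    (x ^ p + z ^ (p * 2) = y ^ 2 ∧ M = Real.log (y ^ 2) ∨
      z ^ (p * 2) + y ^ 2 = x ^ p ∧ M = Real.log (x ^ p) ∨
      y ^ 2 + x ^ p = z ^ (p * 2) ∧ M = Real.log (z ^ (p * 2))) →
    p * (padicValNat r x) * Real.log r ≤ C * r ^ 10 * (Real.log p ^ 3 / p) * M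

/-- **THEOREM YY**: the final statement. -/
def Stmt_YY : Prop :=
  ∃ C : ℝ, ∀ (a b c m n k p y t d u : ℕ) (η : ℝ), 1 ≤ a → 1 ≤ b → 1 ≤ c → Nat.Coprime a b →
    1 ≤ m → 1 ≤ n → 2 ≤ k →
    (a ^ m + b ^ n = c ^ k ∨ b ^ n + c ^ k = a ^ m ∨ c ^ k + a ^ m = b ^ n) →
    p.Prime → p ∣ m → p ∣ n →
    ((t = a ^ m ∨ t = b ^ n) ∧ η = p * Real.log k ^ 3 / k ∨
      (t = a ^ m ∨ t = b ^ n ∨ t = c ^ k) ∧ ∃ q : ℕ, q.Prime ∧ q ∣ n ∧ q ∣ k ∧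
        η = Real.log ((max p q : ℕ) : ℝ) ^ 8 / Real.sqrt ((max p q : ℕ) : ℝ)) →
    1 ≤ y → t = d * u → (∀ r : ℕ, r.Prime → r ∣ d → r ≤ y) →
    ((max (a ^ m) (max (b ^ n) (c ^ k)) : ℕ) : ℝ) ^ (1 - C * (y : ℝ) ^ 15 * η) ≤ (u : ℝ)

end Pool.Agent.Work.MP_2738db_nt_Y
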