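import Pool.Agent.Work.MP_2738db_nt_Y.Interface4

/-!
Theorem Y, phase 5: the third term `c ^ k` of `a ^ m ± b ^ n = ± c ^ k` when `gcd (m, n) ≥ 3`.
Statements of the blocks; proofs: `BLUEPRINT5.md`.
-/

set_option autoImplicit false

namespace Pool.Agent.Work.MP_2738db_nt_Y

open Finset NumberField
open Pool.Agent.Work.MP_2738db_nt_A (HB)

/-- `τ` is complex conjugation in every complex embedding. -/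
def IsConjugation (K : Type) [Field K] [NumberField K] (τ : 𝓞 K ≃+* 𝓞 K) : Prop :=
  ∀ (φ : K →+* ℂ) (z : 𝓞 K), φ ((τ z : 𝓞 K) : K) = starRingEnd ℂ (φ (z : K))

/-- **BGN**: every ideal has a small power with a balanced generator. -/
def Stmt_Bgn : Prop :=
  ∃ C : ℝ, 1 ≤ C ∧ ∀ (K : Type) [Field K] [NumberField K] (H : ℝ) (I : Ideal (𝓞 K)),
    I ≠ ⊥ → 2 ≤ H → (Module.finrank ℚ K : ℝ) ≤ H → Real.log |(discr K : ℝ)| ≤ H →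
    ∃ (s : ℕ) (α : 𝓞 K), 1 ≤ s ∧ (s : ℝ) ≤ Real.exp (H ^ C) ∧ Ideal.span {α} = I ^ s ∧
      HB K α (Real.exp (H ^ C) * (1 + Real.log (Ideal.absNorm I)))

/-- **CYD**: the cyclotomic fields of conductor a prime, 4 or 8, with complex conjugation. -/
def Stmt_Cyd : Prop :=
  ∀ n : ℕ, (n.Prime ∧ 3 ≤ n ∨ n = 4 ∨ n = 8) →
    ∃ (K : Type) (_ : Field K) (_ : NumberField K) (ζ : 𝓞 K) (τ : 𝓞 K ≃+* 𝓞 K),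
      IsPrimitiveRoot ζ n ∧ IsConjugation K τ ∧ (Module.finrank ℚ K : ℝ) ≤ n ∧
      Real.log |(discr K : ℝ)| ≤ (n : ℝ) ^ 2

/-- **IDP**: the ideals `(x - ζ ^ j Y)` if `x ^ p - Y ^ p = ± c ^ k`, `p` an odd prime. -/
def Stmt_Idp : Prop :=
  ∀ (K : Type) [Field K] [NumberField K] (p : ℕ) (ζ : 𝓞 K) (x Y : ℤ) (c k j : ℕ),
    p.Prime → 3 ≤ p → IsPrimitiveRoot ζ p → IsCoprime x Y → 1 ≤ c → 1 ≤ k →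
    (x ^ p - Y ^ p = (c : ℤ) ^ k ∨ x ^ p - Y ^ p = -(c : ℤ) ^ k) → ¬ p ∣ j →
    ∃ 𝔇 𝔞 : Ideal (𝓞 K), Ideal.span {(x : 𝓞 K) - ζ ^ j * (Y : 𝓞 K)} = 𝔇 * 𝔞 ^ k ∧
      (𝔇 = ⊤ ∨ 𝔇 = Ideal.span {1 - ζ}) ∧ 𝔞 ∣ Ideal.span {(c : 𝓞 K)} ∧
      (∀ P : Ideal (𝓞 K), P.IsPrime → 𝔞 ≤ P → (p : 𝓞 K) ∉ P) ∧
      (p ∣ c → 𝔇 = Ideal.span {1 - ζ}) ∧ (¬ p ∣ c → 𝔇 = ⊤)

/-- **ID4**: the same for the exponent `4`. -/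
def Stmt_Id4 : Prop :=
  ∀ (K : Type) [Field K] [NumberField K] (ζ : 𝓞 K) (x Y : ℤ) (c k j : ℕ),
    IsPrimitiveRoot ζ 4 → IsCoprime x Y → 1 ≤ c → 1 ≤ k →
    (x ^ 4 - Y ^ 4 = (c : ℤ) ^ k ∨ x ^ 4 - Y ^ 4 = -(c : ℤ) ^ k) → Odd j →
    ∃ 𝔇 𝔞 : Ideal (𝓞 K), Ideal.span {(x : 𝓞 K) - ζ ^ j * (Y : 𝓞 K)} = 𝔇 * 𝔞 ^ k ∧
      (𝔇 = ⊤ ∨ 𝔇 = Ideal.span {1 - ζ}) ∧ 𝔞 ∣ Ideal.span {(c : 𝓞 K)} ∧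
      (∀ P : Ideal (𝓞 K), P.IsPrime → 𝔞 ≤ P → (4 : 𝓞 K) ∉ P)

/-- **ID8**: `x ^ 4 + Y ^ 4 = c ^ k`. -/
def Stmt_Id8 : Prop :=
  ∀ (K : Type) [Field K] [NumberField K] (ζ : 𝓞 K) (x Y : ℤ) (c k j : ℕ),
    IsPrimitiveRoot ζ 8 → IsCoprime x Y → 1 ≤ c → 2 ≤ k → x ^ 4 + Y ^ 4 = (c : ℤ) ^ k → Odd j →
    ∃ 𝔞 : Ideal (𝓞 K), Ideal.span {(x : 𝓞 K) - ζ ^ j * (Y : 𝓞 K)} = 𝔞 ^ k ∧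
      𝔞 ∣ Ideal.span {(c : 𝓞 K)} ∧ ∀ P : Ideal (𝓞 K), P.IsPrime → 𝔞 ≤ P → (8 : 𝓞 K) ∉ P

/-- **KUM**: from ideals to numbers. -/
def Stmt_Kum : Prop :=
  ∃ C : ℝ, 1 ≤ C ∧ ∀ (K : Type) [Field K] [NumberField K] (τ : 𝓞 K ≃+* 𝓞 K) (H : ℝ)
    (z : 𝓞 K) (c k : ℕ) (𝔇 𝔞 : Ideal (𝓞 K)), IsConjugation K τ →
    2 ≤ H → (Module.finrank ℚ K : ℝ) ≤ H → Real.log |(discr K : ℝ)| ≤ H →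
    z ≠ 0 → Ideal.span {z} = 𝔇 * 𝔞 ^ k → 𝔇.map (τ : 𝓞 K →+* 𝓞 K) = 𝔇 →
    𝔞 ∣ Ideal.span {(c : 𝓞 K)} → 2 ≤ c →
    ∃ (s : ℕ) (α : 𝓞 K), 1 ≤ s ∧ (s : ℝ) ≤ Real.exp (H ^ C) ∧ α ≠ 0 ∧
      Ideal.span {α} = 𝔞 ^ s ∧ HB K α (Real.exp (H ^ C) * Real.log c) ∧
      z ^ s * (τ α) ^ k = (τ z) ^ s * α ^ k

/-- the relation between `x - ζ ^ j Y` and its conjugate which KUP and KUQ prove -/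
def KRel (K : Type) [Field K] [NumberField K] (n : ℕ) (ζ : 𝓞 K) (τ : 𝓞 K ≃+* 𝓞 K) (S : ℝ)
    (x Y : ℤ) (c k j : ℕ) : Prop :=
  ∃ (s : ℕ) (α : 𝓞 K), 1 ≤ s ∧ (s : ℝ) ≤ S ∧ HB K α (S * Real.log c) ∧
    HB K (τ α) (S * Real.log c) ∧
    ((x : 𝓞 K) - ζ ^ j * (Y : 𝓞 K)) ^ s * (τ α) ^ k =
      ((x : 𝓞 K) - τ (ζ ^ j) * (Y : 𝓞 K)) ^ s * α ^ k ∧
    (∀ P : Ideal (𝓞 K), P.IsPrime → α ∈ P →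
      (x : 𝓞 K) - ζ ^ j * (Y : 𝓞 K) ∈ P ∧ (n : 𝓞 K) ∉ P) ∧
    (∀ P : Ideal (𝓞 K), P.IsPrime → τ α ∈ P →
      (x : 𝓞 K) - τ (ζ ^ j) * (Y : 𝓞 K) ∈ P ∧ (n : 𝓞 K) ∉ P)

/-- **KUP**: the relation for `x ^ n - Y ^ n = ± c ^ k`, `n` an odd prime or `4`. -/
def Stmt_Kup : Prop :=
  ∃ C : ℝ, 1 ≤ C ∧ ∀ (K : Type) [Field K] [NumberField K] (n : ℕ) (ζ : 𝓞 K)
    (τ : 𝓞 K ≃+* 𝓞 K) (x Y : ℤ) (c k j : ℕ), (n.Prime ∧ 3 ≤ n ∨ n = 4) →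
    IsPrimitiveRoot ζ n → IsConjugation K τ → (Module.finrank ℚ K : ℝ) ≤ n →
    Real.log |(discr K : ℝ)| ≤ (n : ℝ) ^ 2 → IsCoprime x Y → 2 ≤ c → 1 ≤ k →
    (x ^ n - Y ^ n = (c : ℤ) ^ k ∨ x ^ n - Y ^ n = -(c : ℤ) ^ k) → Nat.Coprime j n →
    KRel K n ζ τ (Real.exp ((n : ℝ) ^ C)) x Y c k j

/-- **KUQ**: the relation for `x ^ 4 + Y ^ 4 = c ^ k`. -/
def Stmt_Kuq : Prop :=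
  ∃ S : ℝ, 1 ≤ S ∧ ∀ (K : Type) [Field K] [NumberField K] (ζ : 𝓞 K)
    (τ : 𝓞 K ≃+* 𝓞 K) (x Y : ℤ) (c k j : ℕ),
    IsPrimitiveRoot ζ 8 → IsConjugation K τ → (Module.finrank ℚ K : ℝ) ≤ 8 →
    Real.log |(discr K : ℝ)| ≤ 64 → IsCoprime x Y → 2 ≤ c → 2 ≤ k →
    x ^ 4 + Y ^ 4 = (c : ℤ) ^ k → Odd j → KRel K 8 ζ τ S x Y c k j

/-- **ARK**: Archimedean lower bound for `|β ^ n - 1|`, `|β| = 1`, over a number field. -/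
def Stmt_Ark : Prop :=
  ∃ C : ℝ, 1 ≤ C ∧ ∀ (K : Type) [Field K] [NumberField K] (φ : K →+* ℂ) (β₁ β₂ : 𝓞 K) (n : ℕ)
    (A H : ℝ), β₁ ≠ 0 → β₂ ≠ 0 → 1 ≤ n → 1 ≤ A → 2 ≤ H → (Module.finrank ℚ K : ℝ) ≤ H →
    HB K β₁ A → HB K β₂ A → ‖φ (β₁ : K)‖ = ‖φ (β₂ : K)‖ → (∀ j : ℕ, 1 ≤ j → β₁ ^ j ≠ β₂ ^ j) →
    Real.exp (-(H ^ C * A * (1 + Real.log n) ^ 2)) ≤ ‖(φ (β₁ : K) / φ (β₂ : K)) ^ n - 1‖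

/-- **LTK**: `P`-adic valuation of `β₁ ^ n - β₂ ^ n`. -/
def Stmt_Ltk : Prop :=
  ∀ (K : Type) [Field K] [NumberField K] (P : Ideal (𝓞 K)), P.IsPrime → P ≠ ⊥ →
    ∃ C : ℝ, 1 ≤ C ∧ ∀ (β₁ β₂ : 𝓞 K) (n M : ℕ) (A : ℝ), β₁ ∉ P → β₂ ∉ P → 1 ≤ n → 1 ≤ A →
      HB K β₁ A → HB K β₂ A → β₁ ^ n ≠ β₂ ^ n → β₁ ^ n - β₂ ^ n ∈ P ^ M →
      (M : ℝ) ≤ C * A * (1 + Real.log n)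

/-- **RG**: `P`-adic bound for `κ₁ α₁ ^ k - κ₂ α₂ ^ k`. -/
def Stmt_Rg : Prop :=
  ∀ (K : Type) [Field K] [NumberField K] (P : Ideal (𝓞 K)) (B : ℝ), P.IsPrime → P ≠ ⊥ → 1 ≤ B →
    ∃ C : ℝ, 1 ≤ C ∧ ∀ (κ₁ κ₂ α₁ α₂ : 𝓞 K) (k M : ℕ) (A : ℝ), κ₁ ∉ P → κ₂ ∉ P → α₁ ∉ P →
      α₂ ∉ P → 1 ≤ k → 1 ≤ A → HB K κ₁ B → HB K κ₂ B → HB K α₁ A → HB K α₂ A →
      ((∀ j : ℕ, 1 ≤ j → κ₁ ^ j ≠ κ₂ ^ j) ∨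
        ∃ j : ℕ, 1 ≤ j ∧ (j : ℝ) ≤ B ∧ κ₁ ^ j = κ₂ ^ j ∧ α₁ ^ (j * k) ≠ α₂ ^ (j * k)) →
      κ₁ * α₁ ^ k - κ₂ * α₂ ^ k ∈ P ^ M →
      (M : ℝ) ≤ C * A * (1 + Real.log k) ^ 2 ∨ (k : ℝ) ≤ C

/-- **A3**: `x ^ n` is not much larger than `x ^ n - y ^ n = c ^ k`. -/
def Stmt_A3 : Prop :=
  ∃ C : ℝ, 1 ≤ C ∧ ∀ (n x y c k : ℕ), (n.Prime ∧ 3 ≤ n ∨ n = 4) → 1 ≤ y → y < x →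
    Nat.Coprime x y → 1 ≤ k → 2 ≤ c → y ^ n + c ^ k = x ^ n →
    (x : ℝ) ^ n ≤ (c : ℝ) ^ k *
      Real.exp (Real.exp ((n : ℝ) ^ C) * Real.log c * (1 + Real.log k) ^ 2)

/-- the `r`-part of `c ^ k = x ^ p + e y ^ p` is small (`e = ± 1`) -/
def R3 (e : ℤ) (p r : ℕ) : Prop :=
  ∃ C : ℝ, 1 ≤ C ∧ ∀ (x y c k : ℕ), 1 ≤ x → 1 ≤ y → Nat.Coprime x y → 2 ≤ k → 2 ≤ c → r ∣ c →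
    (x : ℤ) ^ p + e * (y : ℤ) ^ p = (c : ℤ) ^ k →
    (k : ℝ) * (padicValNat r c : ℝ) ≤ C * Real.log c * (1 + Real.log k) ^ 2

/-- **R3A**: `p ≥ 5`, `r ≠ p`. -/
def Stmt_R3a : Prop :=
  ∀ (p r : ℕ) (e : ℤ), p.Prime → r.Prime → 5 ≤ p → r ≠ p → (e = 1 ∨ e = -1) → R3 e p r

/-- **R3B**: `p = 3`, `r ≠ 3`. -/
def Stmt_R3b : Prop :=
  ∀ (r : ℕ) (e : ℤ), r.Prime → r ≠ 3 → (e = 1 ∨ e = -1) → R3 e 3 r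

/-- **R3C**: `r = p`. -/
def Stmt_R3c : Prop :=
  ∀ (p : ℕ) (e : ℤ), p.Prime → 3 ≤ p → (e = 1 ∨ e = -1) → R3 e p p

/-- **R3D**: `x ^ 4 - y ^ 4 = c ^ k`. -/
def Stmt_R3d : Prop := ∀ r : ℕ, r.Prime → R3 (-1) 4 r

/-- **R3E**: `x ^ 4 + y ^ 4 = c ^ k`. -/
def Stmt_R3e : Prop := ∀ r : ℕ, r.Prime → R3 1 4 r

/-- **THEOREM YW**: the final statement. -/
def Stmt_YW : Prop :=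
  ∃ (C : ℝ) (C' : ℕ → ℕ → ℝ), ∀ (a b c m n k p y t d u : ℕ) (η : ℝ), 1 ≤ a → 1 ≤ b → 1 ≤ c →
    Nat.Coprime a b → 1 ≤ m → 1 ≤ n → 2 ≤ k →
    (a ^ m + b ^ n = c ^ k ∨ b ^ n + c ^ k = a ^ m ∨ c ^ k + a ^ m = b ^ n) →
    p ∣ m → p ∣ n →
    (p.Prime ∧ (t = a ^ m ∨ t = b ^ n) ∧ η = C * y ^ 15 * (p * Real.log k ^ 3 / k) ∨
      p.Prime ∧ (t = a ^ m ∨ t = b ^ n ∨ t = c ^ k) ∧ (∃ q : ℕ, q.Prime ∧ q ∣ n ∧ q ∣ k ∧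
        η = C * y ^ 15 *
          (Real.log ((max p q : ℕ) : ℝ) ^ 8 / Real.sqrt ((max p q : ℕ) : ℝ))) ∨
      3 ≤ p ∧ (t = a ^ m ∨ t = b ^ n ∨ t = c ^ k) ∧ η = C' p y * (Real.log k ^ 3 / k)) →
    1 ≤ y → t = d * u → (∀ r : ℕ, r.Prime → r ∣ d → r ≤ y) →
    ((max (a ^ m) (max (b ^ n) (c ^ k)) : ℕ) : ℝ) ^ (1 - η) ≤ (u : ℝ)

end Pool.Agent.Work.MP_2738db_nt_Y
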